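import Pool.Agent.H25.TRI.Targets

/-! Row MOD of part C of the regularity theorem (MP_2697e3_an): mollification of a weakly
divergence free field is divergence free. -/

set_option autoImplicit false

namespace Pool.Agent.H84.TRI

open MeasureTheory Metric Set Filter Topology Pool.Agent.H87.SN Pool.Agent.H25.TRI
open scoped ContDiff RealInnerProductSpace ENNReal Convolution

theorem pd_moll {n : ℕ} (m f : E n → ℝ) (hm : Cc m) (hf : Integrable f) (i : Fin n) (x : E n) :
    pd i (fun y => ∫ z, m z * f (y - z)) x = ∫ w, pd i m (x - w) * f w := by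
  have h1 : (fun y => ∫ z, m z * f (y - z)) = (m ⋆[ContinuousLinearMap.mul ℝ ℝ, volume] f) := by
    funext y
    rfl
  have hd := HasCompactSupport.hasFDerivAt_convolution_left (ContinuousLinearMap.mul ℝ ℝ)
    (f := m) (g := f) (μ := (volume : Measure (E n))) hm.2 (hm.1.of_le (by exact_mod_cast le_top))
    hf.locallyIntegrable x
  rw [h1]
  unfold pd
  rw [hd.fderiv]
  have hce : ConvolutionExistsAt (fderiv ℝ m) f x
      ((ContinuousLinearMap.mul ℝ ℝ).precompL (E n)) volume := by
    refine HasCompactSupport.convolutionExists_left _ (hm.2.fderiv ℝ)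
      (hm.1.continuous_fderiv (by simp)) hf.locallyIntegrable x
  have h2 : ((fderiv ℝ m ⋆[(ContinuousLinearMap.mul ℝ ℝ).precompL (E n), volume] f) x) (bv i) =
      ∫ t, (fderiv ℝ m t) (bv i) * f (x - t) := by
    rw [convolution_def]
    rw [ContinuousLinearMap.integral_apply]
    · rfl
    · exact hce
  rw [h2]
  rw [← integral_sub_left_eq_self (fun t => (fderiv ℝ m t) (bv i) * f (x - t)) volume x]
  refine integral_congr_ae (Eventually.of_forall fun w => ?_)
  simp

theorem pf_MOD : T_MOD := by
  intro n m G hm hG _ hdiv x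
  have hφ : Cc (fun w => m (x - w)) := by
    refine ⟨hm.1.comp (contDiff_const.sub contDiff_id), ?_⟩
    have : (fun w => m (x - w)) = m ∘ (Homeomorph.subLeft x) := rfl
    rw [this]
    exact hm.2.comp_homeomorph _
  have hpd : ∀ (i : Fin n) (w : E n), pd i (fun w => m (x - w)) w = -(pd i m (x - w)) := by
    intro i w
    unfold pd
    have hdm : HasFDerivAt m (fderiv ℝ m (x - w)) (x - w) :=
      ((hm.1.differentiable (by simp)) (x - w)).hasFDerivAt
    have hs : HasFDerivAt (fun w : E n => x - w) (-(ContinuousLinearMap.id ℝ (E n))) w :=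
      (hasFDerivAt_id w).const_sub x
    have hc := hdm.comp w hs
    have : fderiv ℝ (fun w => m (x - w)) w =
        (fderiv ℝ m (x - w)).comp (-(ContinuousLinearMap.id ℝ (E n))) := hc.fderiv
    rw [this]
    simp
  have h := hdiv _ hφ
  have e : ∀ i : Fin n, pd i (fun y => ∫ z, m z * G i (y - z)) x =
      -∫ w, G i w * pd i (fun w => m (x - w)) w := by
    intro i
    rw [pd_moll m (G i) hm (hG i) i x, ← integral_neg]
    refine integral_congr_ae (Eventually.of_forall fun w => ?_)
    simp only [hpd]
    ring
  simp only [e]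
  rw [Finset.sum_neg_distrib, h, neg_zero]

end Pool.Agent.H84.TRI
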